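import Pool.Agent.H828R3.GP.Three

set_option autoImplicit false

/-! Negative odd integers: power saving for the number of Syracuse orbits that do not enter the three
known cycles, given a verification up to `y`. -/

namespace Pool.Agent.Results.MP_005f52_nt.NegativePowerSaving

/-- the Syracuse map `(3N+1)/2^(v_2(3N+1))` -/
def Syr (N : ℤ) : ℤ := (3 * N + 1) / 2 ^ (padicValInt 2 (3 * N + 1))

/-- the union of the three known cycles -/
def C : Set ℤ := {-1, -5, -7, -17, -25, -37, -55, -41, -61, -91}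

/-- number of the negative odd integers `N ≥ -X` with the property `P` -/
noncomputable def count (P : ℤ → Prop) (X : ℝ) : ℝ :=
  ({N : ℤ | N % 2 = 1 ∧ N < 0 ∧ -X ≤ (N : ℝ) ∧ P N}.ncard : ℝ)

abbrev T : ℤ → ℤ := Pool.Agent.H499R2.ND.Td 1

theorem Syr_spec {N : ℤ} (h : N % 2 = 1) :
    (3 * N + 1) = 2 ^ (padicValInt 2 (3 * N + 1)) * Syr N ∧ Syr N % 2 = 1 ∧
      1 ≤ padicValInt 2 (3 * N + 1) := by
  have h0 : 3 * N + 1 ≠ 0 := by omega
  have hd : (2 : ℤ) ^ (padicValInt 2 (3 * N + 1)) ∣ 3 * N + 1 := by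
    exact_mod_cast padicValInt_dvd (p := 2) (a := 3 * N + 1)
  have h1 : (3 * N + 1) = 2 ^ (padicValInt 2 (3 * N + 1)) * Syr N := by
    unfold Syr
    exact (Int.mul_ediv_cancel' hd).symm
  refine ⟨h1, ?_, ?_⟩
  · rcases Int.emod_two_eq_zero_or_one (Syr N) with h2 | h2
    · exfalso
      obtain ⟨t, ht⟩ := Int.dvd_of_emod_eq_zero h2
      have h3 : (2 : ℤ) ^ (padicValInt 2 (3 * N + 1) + 1) ∣ 3 * N + 1 := by
        refine ⟨t, ?_⟩
        rw [pow_succ, mul_assoc, ← ht]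
        exact h1
      have h4 : ((2 : ℕ) : ℤ) ^ (padicValInt 2 (3 * N + 1) + 1) ∣ 3 * N + 1 := by exact_mod_cast h3
      rw [padicValInt_dvd_iff] at h4
      rcases h4 with h4 | h4
      · exact h0 h4
      · omega
    · exact h2
  · by_contra hcon
    have h2 : padicValInt 2 (3 * N + 1) = 0 := by omega
    have h3 : ((2 : ℕ) : ℤ) ^ 1 ∣ 3 * N + 1 := by
      rw [pow_one]; push_cast; omega
    rw [padicValInt_dvd_iff] at h3
    rcases h3 with h3 | h3
    · exact h0 h3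
    · omega

theorem Syr_odd {N : ℤ} (h : N % 2 = 1) (j : ℕ) : (Syr^[j] N) % 2 = 1 := by
  induction j with
  | zero => simpa using h
  | succ j ih => rw [Function.iterate_succ_apply']; exact (Syr_spec ih).2.1

theorem Syr_neg {N : ℤ} (h : N % 2 = 1) (h0 : N < 0) (j : ℕ) : Syr^[j] N < 0 := by
  induction j with
  | zero => simpa using h0
  | succ j ih =>
    rw [Function.iterate_succ_apply']
    have h1 := (Syr_spec (Syr_odd h j)).1
    by_contra hcon
    push Not at hcon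
    have h2 : (0 : ℤ) ≤ 2 ^ (padicValInt 2 (3 * Syr^[j] N + 1)) * Syr (Syr^[j] N) := by positivity
    omega

/-- the terms of the `T` orbit are the terms of the Syracuse orbit times powers of 2 -/
theorem T_Syr {N : ℤ} (h : N % 2 = 1) (n : ℕ) : ∃ i j : ℕ, T^[n] N = 2 ^ i * Syr^[j] N := by
  induction n with
  | zero => exact ⟨0, 0, by simp⟩
  | succ n ih =>
    obtain ⟨i, j, hij⟩ := ih
    rw [Function.iterate_succ_apply', hij]
    cases i with
    | succ i =>
      refine ⟨i, j, ?_⟩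
      have : (2 : ℤ) ^ (i + 1) * Syr^[j] N = 2 * (2 ^ i * Syr^[j] N) := by ring
      rw [this]
      exact Pool.Agent.H499R2.ND.Td_two 1 _
    | zero =>
      obtain ⟨h1, h2, h3⟩ := Syr_spec (Syr_odd h j)
      obtain ⟨v, hv⟩ : ∃ v, padicValInt 2 (3 * Syr^[j] N + 1) = v + 1 :=
        ⟨padicValInt 2 (3 * Syr^[j] N + 1) - 1, by omega⟩
      refine ⟨v, j + 1, ?_⟩
      rw [pow_zero, one_mul, Function.iterate_succ_apply']
      rw [hv] at h1
      apply Pool.Agent.H499R2.ND.Td_odd (Int.odd_iff.2 (Syr_odd h j))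
      rw [h1, pow_succ]; ring

/-- For every `0 < c < 1 - H(log_3 2)` (`H` the binary entropy in bits; `1 - H(log_3 2) > 0.049`) there is
`K` such that for all `X, y ≥ 1`: (1) at most `K X / y^c` of the negative odd integers `N ≥ -X` have a
Syracuse orbit that stays below `-y`; (2) if the orbits of all negative odd integers `N ≥ -y` enter one of
the three known cycles, then so do the orbits of all but at most `K X / y^c` of the negative odd integers
`N ≥ -X`. -/
theorem result : 0.049 < 1 - Real.binEntropy (Real.log 2 / Real.log 3) / Real.log 2 ∧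
    ∀ c : ℝ, 0 < c → c < 1 - Real.binEntropy (Real.log 2 / Real.log 3) / Real.log 2 →
      ∃ K : ℝ, 0 < K ∧ ∀ X y : ℝ, 1 ≤ X → 1 ≤ y →
        count (fun N => ∀ k : ℕ, ((Syr^[k] N : ℤ) : ℝ) < -y) X ≤ K * X / y ^ c ∧
        ((∀ N : ℤ, N % 2 = 1 → N < 0 → -y ≤ (N : ℝ) → ∃ k : ℕ, Syr^[k] N ∈ C) →
          count (fun N => ∀ k : ℕ, Syr^[k] N ∉ C) X ≤ K * X / y ^ c) := by
  refine ⟨by have := Pool.Agent.H319R2.beta_lt; unfold Pool.Agent.H319R2.beta at this; linarith, ?_⟩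
  intro c hc0 hc
  obtain ⟨K, hK, h⟩ := Pool.Agent.H828R3.GP.three odd_one hc0 hc
  refine ⟨K, hK, fun X y hX hy => ?_⟩
  have hfin : ∀ P : ℤ → Prop, {N : ℤ | |(N : ℝ)| ≤ X ∧ P N}.Finite := by
    intro P
    apply (Set.finite_Icc (-⌈X⌉) ⌈X⌉).subset
    rintro x ⟨hx, -⟩
    have h1 := abs_le.1 hx
    have h2 := Int.le_ceil X
    rw [Set.mem_Icc]
    constructor
    · have : (-(⌈X⌉ : ℤ) : ℝ) ≤ x := by linarith
      exact_mod_cast this
    · have : (x : ℝ) ≤ (⌈X⌉ : ℤ) := by linarith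
      exact_mod_cast this
  have key : ∀ P : ℤ → Prop, (∀ N : ℤ, N % 2 = 1 → N < 0 → P N → ∀ k : ℕ, ((Syr^[k] N : ℤ) : ℝ) < -y) →
      count P X ≤ K * X / y ^ c := by
    intro P hP
    refine le_trans ?_ (h X y hX hy)
    unfold count
    have hsub : {N : ℤ | N % 2 = 1 ∧ N < 0 ∧ -X ≤ (N : ℝ) ∧ P N} ⊆
        {x : ℤ | |(x : ℝ)| ≤ X ∧ ∀ n : ℕ, y < |(((Pool.Agent.H499R2.ND.Td 1)^[n] x : ℤ) : ℝ)|} := by
      rintro N ⟨h1, h2, h3, h4⟩
      have h2' : (N : ℝ) < 0 := by exact_mod_cast h2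
      refine ⟨abs_le.2 ⟨h3, by linarith⟩, fun n => ?_⟩
      obtain ⟨i, j, hij⟩ := T_Syr h1 n
      have h5 := hP N h1 h2 h4 j
      rw [hij]
      push_cast
      rw [abs_mul, abs_of_pos (by positivity : (0 : ℝ) < 2 ^ i), abs_of_neg (by linarith)]
      have h6 : (1 : ℝ) ≤ 2 ^ i := one_le_pow₀ (by norm_num)
      nlinarith
    exact_mod_cast Set.ncard_le_ncard hsub (hfin _)
  refine ⟨key _ (fun N _ _ hN => hN), fun hver => key _ ?_⟩
  intro N h1 h2 hN k
  by_contra hcon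
  push Not at hcon
  obtain ⟨j, hj⟩ := hver _ (Syr_odd h1 k) (Syr_neg h1 h2 k) hcon
  rw [← Function.iterate_add_apply] at hj
  exact hN _ hj

end Pool.Agent.Results.MP_005f52_nt.NegativePowerSaving
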