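import Mathlib
import Pool.Agent.H284R3.RD.OddMain
import Pool.Agent.H284R3.RD.Sets

set_option autoImplicit false

namespace Pool.Agent.Results.MP_005f52_nt.RegularBasins

universe u v

/-- The Syracuse map. -/
def Syr (N : ℤ) : ℤ := (3 * N + 1) / 2 ^ padicValInt 2 (3 * N + 1)

/-- The `k`-kernel of the sequence `c`: the sequences `n ↦ c (k ^ l * n + r)` with `r < k ^ l`. -/
def ker {M : Type v} (k : ℕ) (c : ℕ → M) : Set (ℕ → M) :=
  {f | ∃ l r : ℕ, r < k ^ l ∧ f = fun n => c (k ^ l * n + r)}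

/-- The integers whose orbit under the Syracuse map meets `S`. -/
def Basin (S : Set ℤ) : Set ℤ := {N | ∃ j, Syr^[j] N ∈ S}

/-- The set `A` of negative odd integers is `k`-automatic: the set of the odd `n` with `-n ∈ A` has a
finite `k`-kernel. -/
def Automatic (k : ℕ) (A : Set ℤ) : Prop := (ker k (fun n : ℕ => Odd n ∧ -(n : ℤ) ∈ A)).Finite

lemma syr_eq {N M : ℤ} {v : ℕ} (h : 3 * N + 1 = 2 ^ v * M) (hM : M % 2 = 1) : Syr N = M := by
  have hM0 : M ≠ 0 := by rintro rfl; norm_num at hM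
  have h1 : padicValInt 2 (3 * N + 1) = v := by
    rw [h, padicValInt.mul (by positivity) hM0]
    have h2 : padicValInt 2 M = 0 := padicValInt.eq_zero_of_not_dvd (by
      intro h3
      have : (2 : ℤ) ∣ M := by exact_mod_cast h3
      omega)
    have h3 : padicValInt 2 ((2 : ℤ) ^ v) = v := by
      have e : ((2 : ℤ) ^ v) = ((2 ^ v : ℕ) : ℤ) := by push_cast; ring
      rw [e, padicValInt.of_nat, padicValNat.prime_pow]
    rw [h2, h3, add_zero]
  unfold Syr
  rw [h1, h, Int.mul_ediv_cancel_left _ (by positivity)]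

open Pool.Agent.H284R3.RD in
lemma syr_neg {n : ℕ} (hn : n % 2 = 1) : Syr (-(n : ℤ)) = -((odp (3 * n - 1) : ℕ) : ℤ) := by
  have h1 : 2 ^ (3 * n - 1).factorization 2 * odp (3 * n - 1) = 3 * n - 1 :=
    Nat.ordProj_mul_ordCompl_eq_self _ _
  have h2 := odp_isOdd (n := 3 * n - 1) (by omega)
  apply syr_eq (v := (3 * n - 1).factorization 2)
  · have h3 : ((2 ^ (3 * n - 1).factorization 2 * odp (3 * n - 1) : ℕ) : ℤ) =
        ((3 * n - 1 : ℕ) : ℤ) := by rw [h1]
    push_cast [Nat.cast_sub (show 1 ≤ 3 * n by omega)] at h3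
    linear_combination h3
  · omega

lemma syr_odd_neg {N : ℤ} (h1 : N < 0) (h2 : Odd N) : Syr N < 0 ∧ Odd (Syr N) := by
  obtain ⟨n, rfl⟩ : ∃ n : ℕ, N = -(n : ℤ) := ⟨N.natAbs, by omega⟩
  have h3 : n % 2 = 1 := by
    have := Int.odd_iff.mp h2
    omega
  rw [syr_neg h3]
  have h4 := Pool.Agent.H284R3.RD.odp_isOdd (n := 3 * n - 1) (by omega)
  refine ⟨by omega, ?_⟩
  rw [Int.odd_iff]
  omega

theorem regular {R : Type u} {M : Type v} [Ring R] [IsNoetherianRing R] [AddCommGroup M]
    [Module R M] (c : ℤ → M) (k : ℕ) (hk : 2 ≤ k)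
    (h : ∀ N, N < 0 → Odd N → c (Syr N) = c N)
    (hfin : (Submodule.span R (ker k (fun n : ℕ => if Odd n then c (-(n : ℤ)) else 0))).FG) :
    ∀ N, N < 0 → Odd N → c N = c (-1) := by
  intro N hN hodd
  set c1 : ℕ → M := fun n => if Odd n then c (-(n : ℤ)) else 0 with hc1
  have ho : ∀ n : ℕ, n % 2 = 1 → c1 n = c (-(n : ℤ)) := by
    intro n hn
    simp only [hc1]
    rw [if_pos (Nat.odd_iff.mpr hn)]
  have h0 : ∀ n : ℕ, n % 2 = 0 → c1 n = 0 := by
    intro n hn
    simp only [hc1]
    rw [if_neg (by rw [Nat.odd_iff]; omega)]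
  have h1 : ∀ n : ℕ, n % 2 = 1 → c1 (Pool.Agent.H284R3.RD.odp (3 * n - 1)) = c1 n := by
    intro n hn
    rw [ho _ (Pool.Agent.H284R3.RD.odp_isOdd (by omega)), ho n hn, ← syr_neg hn]
    exact h _ (by omega) (by rw [Int.odd_iff]; omega)
  have h2 := Pool.Agent.H284R3.RD.odd_const (R := R) h0 h1 hk hfin
  obtain ⟨n, rfl⟩ : ∃ n : ℕ, N = -(n : ℤ) := ⟨N.natAbs, by omega⟩
  have h3 : n % 2 = 1 := by
    have := Int.odd_iff.mp hodd
    omega
  have h4 := h2 n h3
  rw [ho n h3, ho 1 (by norm_num)] at h4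
  simpa using h4

theorem automatic {A : Set ℤ} (h : ∀ N, N < 0 → Odd N → (Syr N ∈ A ↔ N ∈ A)) {k : ℕ} (hk : 2 ≤ k)
    (hfin : Automatic k A) {N : ℤ} (hN : N < 0) (hodd : Odd N) : N ∈ A ↔ (-1 : ℤ) ∈ A := by
  classical
  have h1 := Pool.Agent.H284R3.RD.fg_of_finite (k := k)
    (A := fun n : ℕ => Odd n ∧ -(n : ℤ) ∈ A) hfin
  have e : Pool.Agent.H284R3.RD.ind (fun n : ℕ => Odd n ∧ -(n : ℤ) ∈ A) =
      fun n : ℕ => if Odd n then (fun N : ℤ => if N ∈ A then (1 : ZMod 2) else 0) (-(n : ℤ))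
        else 0 := by
    funext n
    simp only [Pool.Agent.H284R3.RD.ind]
    by_cases h2 : Odd n <;> by_cases h3 : -(n : ℤ) ∈ A <;> simp [h2, h3]
  rw [e] at h1
  have h2 := regular (R := ZMod 2) (fun N : ℤ => if N ∈ A then (1 : ZMod 2) else 0) k hk
    (fun N hN hodd => by
      show (if Syr N ∈ A then (1 : ZMod 2) else 0) = if N ∈ A then 1 else 0
      rw [show (Syr N ∈ A) = (N ∈ A) from propext (h N hN hodd)]) h1 N hN hodd
  by_cases h3 : N ∈ A <;> by_cases h4 : (-1 : ℤ) ∈ A <;> simp_all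

lemma basin_inv {S : Set ℤ} (hS : ∀ s ∈ S, ∃ j, Syr^[j + 1] s ∈ S) (N : ℤ) :
    Syr N ∈ Basin S ↔ N ∈ Basin S := by
  constructor
  · rintro ⟨j, hj⟩
    exact ⟨j + 1, by rwa [Function.iterate_succ_apply]⟩
  · rintro ⟨j, hj⟩
    rcases j with _ | j
    · obtain ⟨i, hi⟩ := hS N hj
      exact ⟨i, by rwa [Function.iterate_succ_apply] at hi⟩
    · exact ⟨j, by rwa [Function.iterate_succ_apply] at hj⟩

lemma s1 : Syr (-1) = -1 := syr_eq (v := 1) (by norm_num) (by norm_num)
lemma s5 : Syr (-5) = -7 := syr_eq (v := 1) (by norm_num) (by norm_num)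
lemma s7 : Syr (-7) = -5 := syr_eq (v := 2) (by norm_num) (by norm_num)
lemma s17 : Syr (-17) = -25 := syr_eq (v := 1) (by norm_num) (by norm_num)
lemma s25 : Syr (-25) = -37 := syr_eq (v := 1) (by norm_num) (by norm_num)
lemma s37 : Syr (-37) = -55 := syr_eq (v := 1) (by norm_num) (by norm_num)
lemma s55 : Syr (-55) = -41 := syr_eq (v := 2) (by norm_num) (by norm_num)
lemma s41 : Syr (-41) = -61 := syr_eq (v := 1) (by norm_num) (by norm_num)
lemma s61 : Syr (-61) = -91 := syr_eq (v := 1) (by norm_num) (by norm_num)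
lemma s91 : Syr (-91) = -17 := syr_eq (v := 4) (by norm_num) (by norm_num)

lemma iter1 (j : ℕ) : Syr^[j] (-1) = -1 := by
  induction j with
  | zero => rfl
  | succ j ih => rw [Function.iterate_succ_apply, s1, ih]

lemma iter5 (j : ℕ) : Syr^[j] (-5) = -5 ∨ Syr^[j] (-5) = -7 := by
  induction j with
  | zero => left; rfl
  | succ j ih =>
    rw [Function.iterate_succ_apply']
    rcases ih with h | h
    · right; rw [h, s5]
    · left; rw [h, s7]

/-- (1) Let `c` be a function on the negative odd integers with values in a module over a left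
Noetherian ring which is constant along the orbits of the Syracuse map.  If `n ↦ c (-n)` (extended by
`0` to the even integers) is `k`-regular for some `k ≥ 2` then `c` is constant.
(2) A set of negative odd integers which contains `N` iff it contains `Syr N`, and which is
`k`-automatic for some `k ≥ 2`, is empty or contains all negative odd integers.
(3) If `a` is a negative odd integer on a cycle then the set of the negative odd integers whose orbit
reaches `a` is not `k`-automatic for any `k ≥ 2`.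
(4) All orbits of negative odd integers reach `-1`, `-5` or `-17` iff the set of the negative odd
integers with this property is `k`-automatic for some `k ≥ 2`. -/
theorem result :
    (∀ (R : Type u) (M : Type v) [Ring R] [IsNoetherianRing R] [AddCommGroup M] [Module R M]
      (c : ℤ → M) (k : ℕ), 2 ≤ k → (∀ N, N < 0 → Odd N → c (Syr N) = c N) →
      (Submodule.span R (ker k (fun n : ℕ => if Odd n then c (-(n : ℤ)) else 0))).FG →
      ∀ N, N < 0 → Odd N → c N = c (-1)) ∧
    (∀ (A : Set ℤ) (k : ℕ), 2 ≤ k → (∀ N, N < 0 → Odd N → (Syr N ∈ A ↔ N ∈ A)) →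
      Automatic k A → (∀ N, N < 0 → Odd N → N ∉ A) ∨ (∀ N, N < 0 → Odd N → N ∈ A)) ∧
    (∀ (a : ℤ) (p k : ℕ), a < 0 → Odd a → 1 ≤ p → Syr^[p] a = a → 2 ≤ k →
      ¬ Automatic k (Basin {a})) ∧
    ((∀ N, N < 0 → Odd N → N ∈ Basin {-1, -5, -17}) ↔
      ∃ k, 2 ≤ k ∧ Automatic k (Basin {-1, -5, -17})) := by
  refine ⟨?_, ?_, ?_, ?_⟩
  · intro R M _ _ _ _ c k hk h hfin
    exact regular c k hk h hfin
  · intro A k hk h hfin
    by_cases h1 : (-1 : ℤ) ∈ A
    · right
      intro N hN hodd
      exact (automatic h hk hfin hN hodd).mpr h1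
    · left
      intro N hN hodd h2
      exact h1 ((automatic h hk hfin hN hodd).mp h2)
  · intro a p k ha hao hp hper hk hfin
    have hinv : ∀ N, N < 0 → Odd N → (Syr N ∈ Basin {a} ↔ N ∈ Basin {a}) := by
      intro N _ _
      apply basin_inv
      intro s hs
      rw [Set.mem_singleton_iff] at hs
      subst hs
      exact ⟨p - 1, by rw [show p - 1 + 1 = p by omega, hper]; rfl⟩
    have haB : a ∈ Basin {a} := ⟨0, rfl⟩
    have h1 := (automatic hinv hk hfin ha hao).mp haB
    have h5 := (automatic hinv hk hfin (N := -5) (by norm_num) (by decide)).mpr h1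
    obtain ⟨i, hi⟩ := h1
    obtain ⟨j, hj⟩ := h5
    rw [Set.mem_singleton_iff] at hi hj
    rw [iter1] at hi
    rcases iter5 j with h | h
    · rw [h] at hj; omega
    · rw [h] at hj; omega
  · constructor
    · intro h
      refine ⟨2, le_rfl, ?_⟩
      have e : (fun n : ℕ => Odd n ∧ -(n : ℤ) ∈ Basin {-1, -5, -17}) = fun n : ℕ => Odd n := by
        funext n
        apply propext
        constructor
        · exact fun h => h.1
        · intro hn
          refine ⟨hn, h _ ?_ ?_⟩
          · have := Nat.odd_iff.mp hn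
            omega
          · rw [Int.odd_iff]
            have := Nat.odd_iff.mp hn
            omega
      unfold Automatic
      rw [e]
      exact Pool.Agent.H284R3.RD.finite_of_periodic (D := 2) (k := 2) (A := fun n : ℕ => Odd n)
        (by norm_num) (fun n _ => by rw [Nat.odd_iff, Nat.odd_iff]; omega) le_rfl
    · rintro ⟨k, hk, hfin⟩ N hN hodd
      have hinv : ∀ N, N < 0 → Odd N →
          (Syr N ∈ Basin {-1, -5, -17} ↔ N ∈ Basin {-1, -5, -17}) := by
        intro N _ _
        apply basin_inv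
        intro s hs
        rcases hs with rfl | rfl | hs
        · exact ⟨0, Or.inl (iter1 1)⟩
        · refine ⟨1, Or.inr (Or.inl ?_)⟩
          show Syr (Syr (-5)) = -5
          rw [s5, s7]
        · rw [Set.mem_singleton_iff] at hs
          subst hs
          refine ⟨6, Or.inr (Or.inr ?_)⟩
          rw [Set.mem_singleton_iff]
          show Syr (Syr (Syr (Syr (Syr (Syr (Syr (-17))))))) = -17
          rw [s17, s25, s37, s55, s41, s61, s91]
      exact (automatic hinv hk hfin hN hodd).mpr ⟨0, Or.inl rfl⟩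

end Pool.Agent.Results.MP_005f52_nt.RegularBasins
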