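import Mathlib
import Pool.Agent.H547R3.Sub.Tqk2

set_option autoImplicit false

namespace Pool.Agent.Results.MP_005f52_nt.SimpleParityWords

/-- The Syracuse map: `(3 N + 1) / 2 ^ v_2 (3 N + 1)`. -/
def Syr (N : ℤ) : ℤ := (3 * N + 1) / 2 ^ padicValInt 2 (3 * N + 1)

/-- The `3x+1` map on the integers: `x / 2` for even `x`, `(3 x + 1) / 2` for odd `x`. -/
def T (x : ℤ) : ℤ := if x % 2 = 0 then x / 2 else (3 * x + 1) / 2

/-- The factor `w a, w (a+1), ..., w (b-1)` of the sequence `w` has period `π`. -/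
def HasPeriod (w : ℕ → ℤ) (π a b : ℕ) : Prop := ∀ j, a ≤ j → j + π < b → w (j + π) = w j

/-- The word `w 0, w 1, ..., w (n-1)` is a concatenation of `s` words (cut at `0 = t 0 ≤ t 1 ≤ ... ≤
t s = n`), each of which has some period `π` with `1 ≤ π ≤ ℓ`. -/
def Splits (w : ℕ → ℤ) (ℓ s n : ℕ) : Prop :=
  ∃ t : ℕ → ℕ, t 0 = 0 ∧ t s = n ∧ (∀ i < s, t i ≤ t (i + 1)) ∧
    ∀ i < s, ∃ π, 1 ≤ π ∧ π ≤ ℓ ∧ HasPeriod w π (t i) (t (i + 1))

open Pool.Agent.H547R3.Sub in
lemma T_eq : T = Tm (3 : ℕ) 1 := by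
  funext x; simp [T, Tm]

open Pool.Agent.H547R3.Sub in
lemma dec_of_splits {x : ℤ} {ℓ s n : ℕ} (h : Splits (fun i => T^[i] x % 2) ℓ s n) :
    Dec (par (3 : ℕ) 1 x) ℓ s 0 (0 + n) := by
  obtain ⟨t, h0, hm, hmono, hper⟩ := h
  refine ⟨t, h0, by rw [zero_add, hm], hmono, fun i hi => ?_⟩
  obtain ⟨π, h1, h2, h3⟩ := hper i hi
  refine ⟨π, h1, h2, fun j hj1 hj2 => ?_⟩
  have h4 := h3 j hj1 hj2
  simp only [T_eq] at h4
  exact par_int _ _ _ _ _ h4

/-- the `T`-trajectory of an odd `N` up to `Syr N` -/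
lemma iter_T {N : ℤ} (hN : N % 2 = 1) {j : ℕ} (hj : 1 ≤ j)
    (hj2 : j ≤ padicValInt 2 (3 * N + 1)) : 2 ^ j * T^[j] N = 3 * N + 1 := by
  induction j, hj using Nat.le_induction with
  | base =>
    simp only [Function.iterate_one]
    unfold T
    rw [if_neg (by omega)]
    omega
  | succ j hj ih =>
    have h1 := ih (by omega)
    rw [Function.iterate_succ_apply']
    set y := T^[j] N with hy
    have h2 : (2 : ℤ) ^ (j + 1) ∣ 3 * N + 1 :=
      (pow_dvd_pow 2 hj2).trans (by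
        have := padicValInt_dvd (p := 2) (3 * N + 1)
        exact_mod_cast this)
    have h3 : y % 2 = 0 := by
      rw [← h1, pow_succ] at h2
      have h4 : (2 : ℤ) ∣ y := by
        have h5 : (2 : ℤ) ^ j ≠ 0 := by positivity
        exact Int.dvd_of_mul_dvd_mul_left h5 h2
      omega
    have h4 : 2 * T y = y := by
      unfold T; rw [if_pos h3]; omega
    calc 2 ^ (j + 1) * T y = 2 ^ j * (2 * T y) := by ring
      _ = _ := by rw [h4, h1]

lemma Syr_eq {N : ℤ} (hN : N % 2 = 1) :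
    1 ≤ padicValInt 2 (3 * N + 1) ∧ Syr N = T^[padicValInt 2 (3 * N + 1)] N ∧ Syr N % 2 = 1 := by
  have h0 : (3 * N + 1 : ℤ) ≠ 0 := by omega
  have hv : 1 ≤ padicValInt 2 (3 * N + 1) := by
    have := (padicValInt_dvd_iff (p := 2) 1 (3 * N + 1)).1 (by norm_num; omega)
    rcases this with h | h
    · exact absurd h h0
    · exact h
  have h1 := iter_T hN hv le_rfl
  set v := padicValInt 2 (3 * N + 1) with hvdef
  have hpos : (0 : ℤ) < 2 ^ v := by positivity
  have h2 : Syr N = T^[v] N := by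
    unfold Syr
    rw [← hvdef, ← h1, Int.mul_ediv_cancel_left _ hpos.ne']
  refine ⟨hv, h2, ?_⟩
  by_contra hodd
  have h3 : (2 : ℤ) ∣ T^[v] N := by rw [← h2]; omega
  have h4 : ((2 : ℕ) : ℤ) ^ (v + 1) ∣ 3 * N + 1 := by
    rw [← h1]
    push_cast
    rw [pow_succ]
    exact mul_dvd_mul_left _ h3
  have h5 := (padicValInt_dvd_iff (p := 2) (v + 1) (3 * N + 1)).1 h4
  rcases h5 with h | h
  · exact h0 h
  · omega

/-- odd values of the `T`-trajectory are values of the Syracuse trajectory -/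
lemma syr_of_T (i : ℕ) : ∀ N : ℤ, N % 2 = 1 → T^[i] N % 2 = 1 → ∃ k, Syr^[k] N = T^[i] N := by
  induction i using Nat.strong_induction_on with
  | _ i ih =>
    intro N hN hi
    rcases Nat.eq_zero_or_pos i with h0 | h0
    · exact ⟨0, by rw [h0]; rfl⟩
    · obtain ⟨hv, h1, h2⟩ := Syr_eq hN
      set v := padicValInt 2 (3 * N + 1) with hvdef
      rcases Nat.lt_or_ge i v with h | h
      · -- then `T^i N` is even
        exfalso
        have h3 := iter_T hN (j := i + 1) (by omega) (by omega)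
        have h4 := iter_T hN (j := i) (by omega) (by omega)
        have h5 : (2 : ℤ) ^ i * T^[i] N = 2 ^ i * (2 * T^[i + 1] N) := by
          rw [h4, ← h3]; ring
        have h6 : T^[i] N = 2 * T^[i + 1] N := by
          have : (2 : ℤ) ^ i ≠ 0 := by positivity
          exact mul_left_cancel₀ this h5
        omega
      · have h3 : T^[i] N = T^[i - v] (Syr N) := by
          rw [h1, ← Function.iterate_add_apply, Nat.sub_add_cancel h]
        obtain ⟨k, hk⟩ := ih (i - v) (by omega) (Syr N) h2 (by rw [← h3]; exact hi)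
        exact ⟨k + 1, by rw [Function.iterate_succ_apply, hk, ← h3]⟩

open Pool.Agent.H547R3.Sub in
/-- For all `s` and `η > 0` there are `ε > 0` and `X` such that for every negative odd integer `N`,
every `n ≥ max(X, (1 + η) log_2 |N|)` and every `ℓ ≤ ε n`: if the word of the parities of `N, T N,
..., T^(n-1) N` is a concatenation of `s` words each having a period at most `ℓ`, then the Syracuse
orbit of `N` reaches `-1`, `-5` or `-17`, or the `T`-trajectory of `N` enters within `n` steps a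
cycle with a length between `84` and `ℓ`. -/
theorem result (s : ℕ) (η : ℝ) (hη : 0 < η) :
    ∃ ε : ℝ, 0 < ε ∧ ∃ X : ℕ, ∀ (N : ℤ) (n ℓ : ℕ), N % 2 = 1 → N < 0 → X ≤ n →
      (1 + η) * Real.logb 2 |(N : ℝ)| ≤ n → (ℓ : ℝ) ≤ ε * n →
      Splits (fun i => T^[i] N % 2) ℓ s n →
      (∃ k, Syr^[k] N = -1 ∨ Syr^[k] N = -5 ∨ Syr^[k] N = -17) ∨
        ∃ j π, 84 ≤ π ∧ π ≤ ℓ ∧ j + π ≤ n ∧ T^[j + π] N = T^[j] N := by
  obtain ⟨ε, hε, n0, hn0⟩ :=
    init_gen2 (q := 3) Nat.prime_three (by norm_num) 1 (by norm_num) s η hη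
  refine ⟨ε, hε, n0, fun N n ℓ hodd hN hn0n hn hℓ hS => ?_⟩
  obtain ⟨x, rfl⟩ : ∃ x : ℕ, N = -(x : ℤ) := ⟨N.natAbs, by omega⟩
  have hx1 : 1 ≤ x := by omega
  obtain ⟨j, π, -, h1, h2, h3, h4⟩ := hn0 (-(x : ℤ)) 0 n ℓ hn0n hℓ
    (by
      simp only [Function.iterate_zero, id]
      exact hn) (dec_of_splits hS)
  rw [zero_add] at h3
  rcases Nat.lt_or_ge π 84 with h8 | h8
  · left
    have h7 : SN^[j + π] x = SN^[j] x := by
      have h5 := Tm_neg_cast x (j + π)
      have h6 := Tm_neg_cast x j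
      push_cast at h4
      rw [h5, h6] at h4
      omega
    obtain ⟨i, hi, h9⟩ := reach_neg hx1 h1 (by omega) h7
    have h10 : T^[i] (-(x : ℤ)) = -((SN^[i] x : ℕ) : ℤ) := by
      rw [T_eq]; exact Tm_neg_cast x i
    obtain ⟨k, hk⟩ := syr_of_T i (-(x : ℤ)) hodd (by rw [h10]; omega)
    exact ⟨k, by rw [hk, h10]; omega⟩
  · exact Or.inr ⟨j, π, h8, h2, h3, by rw [T_eq]; exact h4⟩

end Pool.Agent.Results.MP_005f52_nt.SimpleParityWords
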